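import Pool.Agent.U902.KI.Crit

set_option autoImplicit false

/-! The case `β = 1`, `t = 2n/3`. -/

namespace Pool.Agent.U902.KI

lemma base_ineq {n : ℕ} (hn : 3 ≤ n) :
    (2 - (2:ℝ) ^ (3 / (2 * (n:ℝ)))) * ((n:ℝ) * (n - 2) / (n - 1) ^ 2) ^ n ≤
      (((n:ℝ) - 2) / (n - 1)) ^ 2 := by
  rcases (show n = 3 ∨ n = 4 ∨ 5 ≤ n by omega) with rfl | rfl | h5
  · have h : (1.414:ℝ) ≤ 2 ^ (3 / (2 * ((3:ℕ):ℝ))) := by
      have e : (3 / (2 * ((3:ℕ):ℝ))) = ((1:ℕ):ℝ) / ((2:ℕ):ℝ) := by norm_num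
      rw [e]
      have h1 : (1.414:ℝ) ^ 2 ≤ ((2:ℝ) ^ (((1:ℕ):ℝ) / ((2:ℕ):ℝ))) ^ 2 := by
        rw [← Real.rpow_natCast ((2:ℝ) ^ (((1:ℕ):ℝ) / ((2:ℕ):ℝ))), ← Real.rpow_mul (by norm_num),
          div_mul_cancel₀ _ (by norm_num), Real.rpow_natCast]
        norm_num
      exact le_of_pow_le_pow_left₀ (by norm_num) (by positivity) h1
    have h2 : (((3:ℕ):ℝ) * (((3:ℕ):ℝ) - 2) / (((3:ℕ):ℝ) - 1) ^ 2) ^ 3 = 27 / 64 := by norm_num
    have h3 : ((((3:ℕ):ℝ) - 2) / (((3:ℕ):ℝ) - 1)) ^ 2 = 1 / 4 := by norm_num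
    rw [h2, h3]
    linarith
  · have h : (1.29:ℝ) ≤ 2 ^ (3 / (2 * ((4:ℕ):ℝ))) := by
      have e : (3 / (2 * ((4:ℕ):ℝ))) = ((3:ℕ):ℝ) / ((8:ℕ):ℝ) := by norm_num
      rw [e]
      have h1 : (1.29:ℝ) ^ 8 ≤ ((2:ℝ) ^ (((3:ℕ):ℝ) / ((8:ℕ):ℝ))) ^ 8 := by
        rw [← Real.rpow_natCast ((2:ℝ) ^ (((3:ℕ):ℝ) / ((8:ℕ):ℝ))), ← Real.rpow_mul (by norm_num),
          div_mul_cancel₀ _ (by norm_num), Real.rpow_natCast]
        norm_num
      exact le_of_pow_le_pow_left₀ (by norm_num) (by positivity) h1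
    have h2 : (((4:ℕ):ℝ) * (((4:ℕ):ℝ) - 2) / (((4:ℕ):ℝ) - 1) ^ 2) ^ 4 = 4096 / 6561 := by norm_num
    have h3 : ((((4:ℕ):ℝ) - 2) / (((4:ℕ):ℝ) - 1)) ^ 2 = 4 / 9 := by norm_num
    rw [h2, h3]
    linarith
  · have hn5 : (5:ℝ) ≤ n := by exact_mod_cast h5
    obtain ⟨m, hm⟩ : ∃ m : ℝ, m = n - 1 := ⟨_, rfl⟩
    have hm4 : 4 ≤ m := by linarith
    obtain ⟨y, hy⟩ : ∃ y : ℝ, y = 1 / m := ⟨_, rfl⟩
    have hy0 : 0 < y := by rw [hy]; positivity
    have hy4 : y ≤ 1 / 4 := by rw [hy]; exact one_div_le_one_div_of_le (by norm_num) hm4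
    have hmy : m * y = 1 := by rw [hy]; field_simp
    have hnm : (n:ℝ) = m + 1 := by linarith
    have e1 : (n:ℝ) * (n - 2) / (n - 1) ^ 2 = 1 - y ^ 2 := by
      have e0 : m + 1 - 1 = m := by ring
      rw [hnm, hy, e0]
      have : m ≠ 0 := by positivity
      field_simp
      ring
    have e2 : ((n:ℝ) - 2) / (n - 1) = 1 - y := by
      have e0 : m + 1 - 1 = m := by ring
      rw [hnm, hy, e0]
      have : m ≠ 0 := by positivity
      field_simp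
      ring
    rw [e1, e2]
    -- the power
    have h1y : 0 < 1 - y ^ 2 := by nlinarith
    have hp : (1 - y ^ 2) ^ n ≤ (1 - y ^ 2) ^ 2 * Real.exp (-(y - y ^ 2)) := by
      obtain ⟨j, rfl⟩ : ∃ j, n = j + 2 := ⟨n - 2, by omega⟩
      rw [pow_add, mul_comm]
      apply mul_le_mul_of_nonneg_left _ (by positivity)
      have h2 : 1 - y ^ 2 ≤ Real.exp (-y ^ 2) := by
        have := Real.add_one_le_exp (-y ^ 2)
        linarith
      calc (1 - y ^ 2) ^ j ≤ (Real.exp (-y ^ 2)) ^ j := pow_le_pow_left₀ h1y.le h2 j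
        _ = Real.exp (-(y - y ^ 2)) := by
            rw [← Real.exp_nat_mul]
            congr 1
            push_cast at hnm
            have hj : (j:ℝ) = m - 1 := by linarith
            rw [hj]
            have : y ^ 2 = y * y := by ring
            have h3 : (m - 1) * -y ^ 2 = -((m * y) * y - y ^ 2) := by ring
            rw [h3, hmy, one_mul]
    -- the exponential
    have hL : 1.0395 ≤ 3 / 2 * Real.log 2 := by
      have := Real.log_two_gt_d9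
      linarith
    have hx : (3 / (2 * (n:ℝ))) * Real.log 2 = 3 / 2 * Real.log 2 * (y / (1 + y)) := by
      have : (n:ℝ) = (1 + y) / y := by rw [hnm]; field_simp; linarith
      rw [this]
      field_simp
    obtain ⟨a, ha⟩ : ∃ a : ℝ, a = 1.0395 * (y / (1 + y)) := ⟨_, rfl⟩
    have ha0 : 0 ≤ a := by rw [ha]; positivity
    have h2x : 1 + a + a ^ 2 / 2 ≤ (2:ℝ) ^ (3 / (2 * (n:ℝ))) := by
      rw [Real.rpow_def_of_pos (by norm_num), mul_comm, hx]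
      refine (Real.quadratic_le_exp_of_nonneg ha0).trans (Real.exp_le_exp.2 ?_)
      rw [ha]
      exact mul_le_mul_of_nonneg_right hL (by positivity)
    have hay : a * (1 + y) = 1.0395 * y := by
      rw [ha]; field_simp
    have h2n : (2:ℝ) - 2 ^ (3 / (2 * (n:ℝ))) ≤ 1 - a - a ^ 2 / 2 := by linarith
    have hpos : 0 ≤ (2:ℝ) - 2 ^ (3 / (2 * (n:ℝ))) := by
      have : (2:ℝ) ^ (3 / (2 * (n:ℝ))) ≤ 2 ^ (1:ℝ) := by
        apply Real.rpow_le_rpow_of_exponent_le (by norm_num)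
        rw [div_le_one (by positivity)]
        linarith
      rw [Real.rpow_one] at this
      linarith
    have hexp : 1 + (y - y ^ 2) + (y - y ^ 2) ^ 2 / 2 ≤ Real.exp (y - y ^ 2) :=
      Real.quadratic_le_exp_of_nonneg (by nlinarith)
    -- the polynomial inequality
    have hpoly : (1 - a - a ^ 2 / 2) * (1 + y) ^ 2 ≤ 1 + (y - y ^ 2) + (y - y ^ 2) ^ 2 / 2 := by
      have e3 : (1 - a - a ^ 2 / 2) * (1 + y) ^ 2 =
          (1 + y) ^ 2 - (a * (1 + y)) * (1 + y) - (a * (1 + y)) ^ 2 / 2 := by ring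
      rw [e3, hay]
      nlinarith [mul_nonneg hy0.le (sub_nonneg.2 hy4), mul_nonneg (mul_nonneg hy0.le hy0.le)
        (sub_nonneg.2 hy4), mul_nonneg (mul_nonneg (mul_nonneg hy0.le hy0.le) hy0.le)
        (sub_nonneg.2 hy4)]
    have h6 : (2 - (2:ℝ) ^ (3 / (2 * (n:ℝ)))) * (1 + y) ^ 2 ≤ Real.exp (y - y ^ 2) :=
      (mul_le_mul_of_nonneg_right h2n (by positivity)).trans (hpoly.trans hexp)
    calc (2 - (2:ℝ) ^ (3 / (2 * (n:ℝ)))) * (1 - y ^ 2) ^ n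
        ≤ (2 - (2:ℝ) ^ (3 / (2 * (n:ℝ)))) * ((1 - y ^ 2) ^ 2 * Real.exp (-(y - y ^ 2))) :=
          mul_le_mul_of_nonneg_left hp hpos
      _ = ((2 - (2:ℝ) ^ (3 / (2 * (n:ℝ)))) * (1 + y) ^ 2) *
          ((1 - y) ^ 2 * Real.exp (-(y - y ^ 2))) := by ring
      _ ≤ Real.exp (y - y ^ 2) * ((1 - y) ^ 2 * Real.exp (-(y - y ^ 2))) :=
          mul_le_mul_of_nonneg_right h6 (by positivity)
      _ = (1 - y) ^ 2 := by
          rw [Real.exp_neg]
          field_simp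

/-- the condition for `β = 1` and `t = 2n/3` -/
theorem cond_clean {n : ℕ} (hn : 3 ≤ n) : Cond n 1 ((2:ℝ) ^ (3 / (2 * (n:ℝ))) - 1) := by
  have hn3 : (3:ℝ) ≤ n := by exact_mod_cast hn
  have hx : (2:ℝ) ^ (3 / (2 * (n:ℝ))) < 2 := by
    have : (2:ℝ) ^ (3 / (2 * (n:ℝ))) < 2 ^ (1:ℝ) := by
      apply Real.rpow_lt_rpow_of_exponent_lt (by norm_num)
      rw [div_lt_one (by positivity)]
      linarith
    rwa [Real.rpow_one] at this
  have hx1 : 1 ≤ (2:ℝ) ^ (3 / (2 * (n:ℝ))) := Real.one_le_rpow (by norm_num) (by positivity)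
  have hn1 : (0:ℝ) < n - 1 := by linarith
  apply cond_crit (w := 1 / ((n:ℝ) - 1)) (by omega) (by linarith) (by linarith) one_pos
    (by positivity)
  · rw [div_lt_one hn1]; linarith
  · rw [Real.rpow_one, mul_one_div_cancel hn1.ne']
    field_simp
  · have e1 : (n:ℝ) * (1 - 1 / ((n:ℝ) - 1)) / (n - (n - 1) * (1 / ((n:ℝ) - 1))) =
        (n:ℝ) * (n - 2) / (n - 1) ^ 2 := by
      rw [mul_one_div_cancel hn1.ne']
      field_simp
      ring
    have e2 : 1 - 1 / ((n:ℝ) - 1) = (n - 2) / (n - 1) := by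
      field_simp
      ring
    rw [e1, e2, mul_one, Real.rpow_natCast]
    have e3 : (1:ℝ) + 1 = ((2:ℕ):ℝ) := by norm_num
    rw [e3, Real.rpow_natCast]
    have := base_ineq hn
    have e4 : 1 - ((2:ℝ) ^ (3 / (2 * (n:ℝ))) - 1) = 2 - 2 ^ (3 / (2 * (n:ℝ))) := by ring
    rw [e4]
    exact this

end Pool.Agent.U902.KI
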