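import Pool.Agent.U902.KI.Num
import Pool.Agent.U168.KF5.K25

set_option autoImplicit false

/-! Fourfold sums and products of integers. -/

namespace Pool.Agent.U902.KI

open Finset Pool.Agent.N811.IS Pool.Agent.W798.SP Pool.Agent.W798.KF
open Pool.Agent.W741.KF (sm_ne pr_ne pr_pos lg_le)
open scoped Pointwise

set_option exponentiation.threshold 100000

/-- the isoperimetric step used for `N = 4` -/
theorem iso4 (B : Finset ℤ) (hB : B.Nonempty) (hBp : ∀ b ∈ B, 0 < b) :
    (B.card : ℝ) ^ (1 + (17:ℝ) / 13) * ((sumset 3 B).card : ℝ) ^ ((60:ℝ) / 79) ≤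
      ((sumset 4 B).card : ℝ) * ((prodset fun _ : Fin 4 => B).card : ℝ) ^ ((17:ℝ) / 13) := by
  have hC : Cond 4 (((17:ℕ):ℝ) / ((13:ℕ):ℝ)) 0.1814 :=
    cond_num (n := 4) (a := 17) (b := 13) (c := 0.1814) (z₁ := 0.910306) (z₂ := 0.910307)
      (by norm_num) (by norm_num) (by norm_num) (by norm_num) (by norm_num) (by norm_num)
      (by norm_num) (by norm_num) (by norm_num) (by norm_num) (by norm_num)
  have hc : (0.1814:ℝ) ≤ 2 ^ (1 - (60:ℝ) / 79) - 1 := by
    have h := c_le (c := 0.1814) (p := 79) (q := 19) (by norm_num) (by norm_num)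
    have e : (1 - (60:ℝ) / 79) = ((19:ℕ):ℝ) / ((79:ℕ):ℝ) := by norm_num
    rw [e]
    exact h
  have h := iso_one' vrInt (n := 4) (by norm_num) (θ := (60:ℝ) / 79) (by norm_num) (by norm_num)
    (by norm_num) hc (by norm_num) hC B hB hBp (sumset 3 B) (sumset_nonempty 3 hB)
  rw [← sumset_succ] at h
  push_cast at h
  exact h

/-- Solymosi's inequality, for the library sets -/
theorem soly (A : Finset ℝ) (hpos : ∀ x ∈ A, 0 < x) :
    A.card ^ 4 ≤ (A * A).card * (8 * (A + A).card ^ 2 * (Nat.log 2 A.card + 1)) :=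
  ((pCS A hpos).1).trans (Nat.mul_le_mul_left _ (pEN A hpos))

/-- positive integers -/
theorem pos4 (δ : ℝ) (hδ : 0 < δ) : ∃ c : ℝ, 0 < c ∧ ∀ B : Finset ℤ, B.Nonempty →
    (∀ b ∈ B, 0 < b) → c * (B.card : ℝ) ^ ((575:ℝ) / 393 - δ) ≤
      max ((sumset 4 B).card : ℝ) ((prodset fun _ : Fin 4 => B).card : ℝ) := by
  obtain ⟨η, hη⟩ : ∃ η : ℝ, η = δ := ⟨_, rfl⟩
  have hη0 : 0 < η := by rw [hη]; exact hδ
  obtain ⟨C, hC⟩ : ∃ C : ℝ, C = 3 * Real.log 512 + |Real.log 8 + (η - Real.log η)| := ⟨_, rfl⟩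
  refine ⟨Real.exp (-C), Real.exp_pos _, ?_⟩
  intro B hB hBp
  have hiso := iso4 B hB hBp
  obtain ⟨A, hAd⟩ : ∃ A : Finset ℝ, A = B.image (Int.castRingHom ℝ) := ⟨_, rfl⟩
  have hinj : Function.Injective (Int.castRingHom ℝ) := Int.cast_injective
  have hAne : A.Nonempty := by rw [hAd]; exact hB.image _
  have hApos : ∀ x ∈ A, 0 < x := by
    intro x hx
    rw [hAd, Finset.mem_image] at hx
    obtain ⟨b, hb, rfl⟩ := hx
    simpa using hBp b hb
  have hcA : A.card = B.card := by rw [hAd]; exact Finset.card_image_of_injective _ hinj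
  have hIM := fun j => pIM ℤ (Int.castRingHom ℝ) hinj B j
  rw [← hAd] at hIM
  have s3 : ((sm A 2).card : ℝ) = ((sumset 3 B).card : ℝ) := by exact_mod_cast (hIM 2).1
  have s4 : ((sm A 3).card : ℝ) = ((sumset 4 B).card : ℝ) := by exact_mod_cast (hIM 3).1
  have p4 : ((pr A 3).card : ℝ) = ((prodset fun _ : Fin 4 => B).card : ℝ) := by
    exact_mod_cast (hIM 3).2
  rw [← s3, ← s4, ← p4, ← hcA] at hiso
  rw [← s4, ← p4, ← hcA]
  have hN1 : 1 ≤ A.card := hAne.card_pos
  have hNpos : (0 : ℝ) < A.card := by exact_mod_cast hN1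
  have hn0 : 0 ≤ Real.log A.card := Real.log_nonneg (by exact_mod_cast hN1)
  have hsm : ∀ i, (0 : ℝ) < ((sm A i).card : ℝ) := fun i => by
    exact_mod_cast (sm_ne A hAne i).card_pos
  have hpr : ∀ i, (0 : ℝ) < ((pr A i).card : ℝ) := fun i => by
    exact_mod_cast (pr_ne A hAne i).card_pos
  have hc1 : ∀ i i' : ℕ, 3 * Real.log A.card + Real.log ((sm A i).card : ℝ) +
      Real.log ((pr A i').card : ℝ) ≤ Real.log 512 + 2 * Real.log ((sm A (i + 1)).card : ℝ) +
        2 * Real.log ((pr A (i' + 1)).card : ℝ) := by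
    intro i i'
    have h := pKST A (sm A i) (pr A i') hApos (fun g hg => (pr_pos A hApos i' g hg).ne')
    have h' : (A.card : ℝ) ^ 3 * ((sm A i).card : ℝ) * ((pr A i').card : ℝ) ≤
        512 * ((sm A (i + 1)).card : ℝ) ^ 2 * ((pr A (i' + 1)).card : ℝ) ^ 2 := by
      exact_mod_cast h
    have hs := hsm i
    have hp := hpr i'
    have hs' := hsm (i + 1)
    have hp' := hpr (i' + 1)
    have h2 := Real.log_le_log (by positivity) h'
    rw [Real.log_mul (by positivity) (by positivity), Real.log_mul (by positivity) (by positivity),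
      Real.log_mul (by positivity) (by positivity), Real.log_mul (by positivity) (by positivity),
      Real.log_pow, Real.log_pow, Real.log_pow] at h2
    push_cast at h2
    linarith
  have q11 := hc1 1 1
  have q12 := hc1 1 2
  have q22 := hc1 2 2
  norm_num at q11 q12 q22
  -- Solymosi
  have hsol : 4 * Real.log A.card ≤ 2 * Real.log ((sm A 1).card : ℝ) +
      Real.log ((pr A 1).card : ℝ) + 6 * (η * Real.log A.card) +
        (Real.log 8 + (η - Real.log η)) := by
    have h := soly A hApos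
    have h' : (A.card : ℝ) ^ 4 ≤ ((pr A 1).card : ℝ) *
        ((8 * ((Nat.log 2 A.card : ℝ) + 1)) * ((sm A 1).card : ℝ) ^ 2) := by
      have h2 : A.card ^ 4 ≤ (pr A 1).card * ((8 * (Nat.log 2 A.card + 1)) * (sm A 1).card ^ 2) := by
        have e : (pr A 1).card * ((8 * (Nat.log 2 A.card + 1)) * (sm A 1).card ^ 2) =
          (A * A).card * (8 * (A + A).card ^ 2 * (Nat.log 2 A.card + 1)) := by
          show (A * A).card * ((8 * (Nat.log 2 A.card + 1)) * (A + A).card ^ 2) = _
          ring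
        rw [e]
        exact h
      exact_mod_cast h2
    have hp := hpr 1
    have hs := hsm 1
    have hlp : (0:ℝ) < 8 * ((Nat.log 2 A.card : ℝ) + 1) := by positivity
    have h2 := Real.log_le_log (by positivity) h'
    rw [Real.log_pow, Real.log_mul hp.ne' (by positivity), Real.log_mul hlp.ne' (by positivity),
      Real.log_pow] at h2
    push_cast at h2
    have h3 := lg_le hη0 hN1 hN1 (Nat.le_self_pow (by norm_num : (3:ℕ) ≠ 0) A.card) 8 (by norm_num)
    linarith
  -- the isoperimetric step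
  have hI : (30:ℝ) / 13 * Real.log A.card + 60 / 79 * Real.log ((sm A 2).card : ℝ) ≤
      Real.log ((sm A 3).card : ℝ) + 17 / 13 * Real.log ((pr A 3).card : ℝ) := by
    have hs2 := hsm 2
    have hs3 := hsm 3
    have hp3 := hpr 3
    have h2 := Real.log_le_log (by positivity) hiso
    rw [Real.log_mul (by positivity) (by positivity), Real.log_mul (by positivity) (by positivity),
      Real.log_rpow hNpos, Real.log_rpow hs2, Real.log_rpow hp3] at h2
    have e : (1:ℝ) + 17 / 13 = 30 / 13 := by norm_num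
    rw [e] at h2
    linarith
  obtain ⟨m, hm⟩ : ∃ m : ℝ, m = max (Real.log ((sm A 3).card : ℝ))
    (Real.log ((pr A 3).card : ℝ)) := ⟨_, rfl⟩
  have hm1 : Real.log ((sm A 3).card : ℝ) ≤ m := by rw [hm]; exact le_max_left _ _
  have hm2 : Real.log ((pr A 3).card : ℝ) ≤ m := by rw [hm]; exact le_max_right _ _
  have hK := le_abs_self (Real.log 8 + (η - Real.log η))
  have hK0 := abs_nonneg (Real.log 8 + (η - Real.log η))
  have h512 : 0 ≤ Real.log 512 := Real.log_nonneg (by norm_num)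
  have hηn : 0 ≤ η * Real.log A.card := by positivity
  have hfin : ((575:ℝ) / 393 - δ) * Real.log A.card - C ≤ m := by
    rw [hC, ← hη]
    nlinarith
  have e1 : (A.card : ℝ) ^ ((575:ℝ) / 393 - δ) =
      Real.exp (((575:ℝ) / 393 - δ) * Real.log A.card) := by
    rw [Real.rpow_def_of_pos hNpos, mul_comm]
  rw [e1, ← Real.exp_add]
  rw [hm] at hfin
  rcases le_max_iff.1 hfin with h | h
  · refine le_trans ?_ (le_max_left _ _)
    rw [← Real.le_log_iff_exp_le (hsm 3)]
    linarith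
  · refine le_trans ?_ (le_max_right _ _)
    rw [← Real.le_log_iff_exp_le (hpr 3)]
    linarith

/-- all finite sets of integers -/
theorem all4 (κ : ℝ) (hκ : κ < 575 / 393) : ∃ c : ℝ, 0 < c ∧ ∀ A : Finset ℤ, A.Nonempty →
    c * (A.card : ℝ) ^ κ ≤
      max ((sumset 4 A).card : ℝ) ((prodset fun _ : Fin 4 => A).card : ℝ) := by
  obtain ⟨κ', h1, h2⟩ : ∃ κ' : ℝ, max κ 1 = κ' ∧ κ' < 575 / 393 :=
    ⟨max κ 1, rfl, max_lt hκ (by norm_num)⟩
  have hκκ : κ ≤ κ' := by rw [← h1]; exact le_max_left _ _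
  have hκ0 : 0 ≤ κ' := by rw [← h1]; exact zero_le_one.trans (le_max_right _ _)
  obtain ⟨c, hc, H⟩ := pos4 (575 / 393 - κ') (by linarith)
  have e : (575:ℝ) / 393 - (575 / 393 - κ') = κ' := by ring
  rw [e] at H
  refine ⟨min c 1 / 3 ^ κ', by positivity, ?_⟩
  intro A hA
  have hN1 : (1:ℝ) ≤ A.card := by exact_mod_cast hA.card_pos
  have h3 : (A.card : ℝ) ^ κ ≤ (A.card : ℝ) ^ κ' := Real.rpow_le_rpow_of_exponent_le hN1 hκκ
  have h3pos : (0:ℝ) < 3 ^ κ' := by positivity
  refine (mul_le_mul_of_nonneg_left h3 (by positivity)).trans ?_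
  by_cases h0 : A = {0}
  · have h4 : (A.card : ℝ) ^ κ' = 1 := by rw [h0]; simp
    rw [h4, mul_one]
    have h5 : min c 1 / 3 ^ κ' ≤ 1 := by
      rw [div_le_one h3pos]
      exact (min_le_right _ _).trans (Real.one_le_rpow (by norm_num) hκ0)
    exact h5.trans (le_max_of_le_left (by exact_mod_cast (sumset_nonempty 4 hA).card_pos))
  · obtain ⟨B, hB', hBp, hAB, hs, hp⟩ := Pool.Agent.H201R3.SPk.taskG A hA h0
    have hm := H B hB' hBp
    have h4 : (A.card : ℝ) ≤ 3 * B.card := by exact_mod_cast hAB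
    have h5 : (A.card : ℝ) ^ κ' ≤ 3 ^ κ' * (B.card : ℝ) ^ κ' := by
      rw [← Real.mul_rpow (by norm_num) (by positivity)]
      exact Real.rpow_le_rpow (by positivity) h4 hκ0
    calc min c 1 / 3 ^ κ' * (A.card : ℝ) ^ κ'
        ≤ min c 1 / 3 ^ κ' * (3 ^ κ' * (B.card : ℝ) ^ κ') :=
          mul_le_mul_of_nonneg_left h5 (by positivity)
      _ = min c 1 * (B.card : ℝ) ^ κ' := by field_simp
      _ ≤ c * (B.card : ℝ) ^ κ' := mul_le_mul_of_nonneg_right (min_le_left _ _) (by positivity)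
      _ ≤ _ := hm
      _ ≤ _ := by
          apply max_le_max
          · exact_mod_cast hs 4
          · exact_mod_cast hp 4

end Pool.Agent.U902.KI
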