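import Pool.Agent.U902.KI.Ineq

set_option autoImplicit false

/-! Verification of the condition: the extremal point is a root of `1 - n v + (n-1) v^(1+β)`. -/

namespace Pool.Agent.U902.KI

/-- the logarithmic form -/
noncomputable def Ph (n : ℕ) (β v : ℝ) : ℝ :=
  (1 + β) * Real.log (1 - v ^ β) - (n * β) * Real.log (1 - v ^ (1 + β))

/-- the derivative up to a positive factor -/
noncomputable def hh (n : ℕ) (β v : ℝ) : ℝ := 1 - n * v + (n - 1) * v ^ (1 + β)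

lemma rpow_lt1 {v e : ℝ} (h0 : 0 < v) (h1 : v < 1) (he : 0 < e) : 0 < 1 - v ^ e := by
  have := Real.rpow_lt_one h0.le h1 he
  linarith

lemma iff_log {n : ℕ} {c β v : ℝ} (hc1 : c < 1) (hβ : 0 < β) (h0 : 0 < v) (h1 : v < 1) :
    (1 - c) * (1 - v ^ (1 + β)) ^ ((n : ℝ) * β) ≤ (1 - v ^ β) ^ (1 + β) ↔
      Real.log (1 - c) ≤ Ph n β v := by
  have b1 := rpow_lt1 h0 h1 hβ
  have b2 := rpow_lt1 h0 h1 (show 0 < 1 + β by linarith)
  have h1c : 0 < 1 - c := by linarith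
  rw [← Real.log_le_log_iff (by positivity) (by positivity), Real.log_mul (by positivity)
    (by positivity), Real.log_rpow b2, Real.log_rpow b1]
  unfold Ph
  constructor <;> intro h <;> linarith

lemma der {n : ℕ} {β v : ℝ} (hβ : 0 < β) (h0 : 0 < v) (h1 : v < 1) :
    HasDerivAt (Ph n β) (-(β * (1 + β) * v ^ (β - 1) * (hh n β v /
      ((1 - v ^ β) * (1 - v ^ (1 + β)))))) v := by
  have b1 := rpow_lt1 h0 h1 hβ
  have b2 := rpow_lt1 h0 h1 (show 0 < 1 + β by linarith)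
  have a1 : HasDerivAt (fun v : ℝ => 1 - v ^ β) (-(β * v ^ (β - 1))) v :=
    (Real.hasDerivAt_rpow_const (p := β) (Or.inl h0.ne')).const_sub 1
  have a2 : HasDerivAt (fun v : ℝ => 1 - v ^ (1 + β)) (-((1 + β) * v ^ (1 + β - 1))) v :=
    (Real.hasDerivAt_rpow_const (p := 1 + β) (Or.inl h0.ne')).const_sub 1
  have h := ((a1.log b1.ne').const_mul (1 + β)).sub ((a2.log b2.ne').const_mul ((n:ℝ) * β))
  have e1 : v ^ (1 + β) = v * v ^ β := by rw [Real.rpow_add h0, Real.rpow_one]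
  have e2 : v ^ (1 + β - 1) = v * v ^ (β - 1) := by
    have : (1 + β - 1) = 1 + (β - 1) := by ring
    rw [this, Real.rpow_add h0, Real.rpow_one]
  refine (h.congr_deriv ?_)
  rw [e2]
  unfold hh
  rw [e1] at b2 ⊢
  have n1 := b1.ne'
  have n2 := b2.ne'
  clear e1 e2 h a1 a2 b1 b2
  generalize v ^ β = y at *
  generalize v ^ (β - 1) = z at *
  obtain ⟨D, hD⟩ : ∃ D : ℝ, D = 1 - v * y := ⟨_, rfl⟩
  rw [← hD] at n2 ⊢
  field_simp
  rw [hD]
  ring

lemma hh_left {n : ℕ} (hn : 1 ≤ n) {β v v₁ : ℝ} (hβ : 0 < β) (h0 : 0 < v) (h1 : v ≤ v₁)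
    (h2 : v₁ < 1) (hv : 0 ≤ hh n β v₁) : 0 ≤ hh n β v := by
  have hn1 : (1:ℝ) ≤ n := by exact_mod_cast hn
  have hv1 : 0 < 1 - v := by linarith
  set t : ℝ := (v₁ - v) / (1 - v) with ht
  have ht0 : 0 ≤ t := div_nonneg (by linarith) hv1.le
  have ht1 : 1 - t = (1 - v₁) / (1 - v) := by rw [ht]; field_simp; ring
  have ht1' : 0 < 1 - t := by rw [ht1]; exact div_pos (by linarith) hv1
  have hcv := (convexOn_rpow (p := 1 + β) (by linarith)).2
    (show v ∈ Set.Ici (0:ℝ) by simp only [Set.mem_Ici]; exact h0.le)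
    (show (1:ℝ) ∈ Set.Ici (0:ℝ) by simp)
    ht1'.le ht0 (by ring)
  simp only [smul_eq_mul, Real.one_rpow, mul_one] at hcv
  have e : (1 - t) * v + t = v₁ := by rw [ht]; field_simp; ring
  rw [e] at hcv
  unfold hh at hv ⊢
  have h3 : ((n:ℝ) - 1) * v₁ ^ (1 + β) ≤ (n - 1) * ((1 - t) * v ^ (1 + β) + t) :=
    mul_le_mul_of_nonneg_left hcv (by linarith)
  have h4 : 0 ≤ (1 - t) * (1 - n * v + (n - 1) * v ^ (1 + β)) := by
    have h5 : (1 - t) * (1 - n * v + (n - 1) * v ^ (1 + β)) =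
        1 - n * ((1 - t) * v + t) + (n - 1) * ((1 - t) * v ^ (1 + β) + t) := by ring
    rw [h5, e]
    linarith
  exact nonneg_of_mul_nonneg_right h4 ht1'

lemma hh_right {n : ℕ} (hn : 1 ≤ n) {β v v₂ : ℝ} (hβ : 0 < β) (h0 : 0 < v₂) (h1 : v₂ ≤ v)
    (h2 : v < 1) (hv : hh n β v₂ ≤ 0) : hh n β v ≤ 0 := by
  have hn1 : (1:ℝ) ≤ n := by exact_mod_cast hn
  have hv1 : 0 < 1 - v₂ := by linarith
  set t : ℝ := (v - v₂) / (1 - v₂) with ht
  have ht0 : 0 ≤ t := div_nonneg (by linarith) hv1.le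
  have ht1 : 1 - t = (1 - v) / (1 - v₂) := by rw [ht]; field_simp; ring
  have ht1' : 0 < 1 - t := by rw [ht1]; exact div_pos (by linarith) hv1
  have hcv := (convexOn_rpow (p := 1 + β) (by linarith)).2
    (show v₂ ∈ Set.Ici (0:ℝ) by simp only [Set.mem_Ici]; exact h0.le)
    (show (1:ℝ) ∈ Set.Ici (0:ℝ) by simp)
    ht1'.le ht0 (by ring)
  simp only [smul_eq_mul, Real.one_rpow, mul_one] at hcv
  have e : (1 - t) * v₂ + t = v := by rw [ht]; field_simp; ring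
  rw [e] at hcv
  unfold hh at hv ⊢
  have h3 : ((n:ℝ) - 1) * v ^ (1 + β) ≤ (n - 1) * ((1 - t) * v₂ ^ (1 + β) + t) :=
    mul_le_mul_of_nonneg_left hcv (by linarith)
  have h5 : (1 - t) * (1 - n * v₂ + (n - 1) * v₂ ^ (1 + β)) =
        1 - n * ((1 - t) * v₂ + t) + (n - 1) * ((1 - t) * v₂ ^ (1 + β) + t) := by ring
  rw [e] at h5
  have h6 : (1 - t) * (1 - n * v₂ + (n - 1) * v₂ ^ (1 + β)) ≤ 0 :=
    mul_nonpos_of_nonneg_of_nonpos ht1'.le hv
  linarith

lemma anti {n : ℕ} (hn : 1 ≤ n) {β v v₁ : ℝ} (hβ : 0 < β) (h0 : 0 < v) (h1 : v ≤ v₁)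
    (h2 : v₁ < 1) (hv : 0 ≤ hh n β v₁) : Ph n β v₁ ≤ Ph n β v := by
  have hA : AntitoneOn (Ph n β) (Set.Ioc 0 v₁) := by
    apply antitoneOn_of_deriv_nonpos (convex_Ioc 0 v₁)
    · intro x hx
      exact (der hβ hx.1 (lt_of_le_of_lt hx.2 h2)).continuousAt.continuousWithinAt
    · intro x hx
      rw [interior_Ioc] at hx
      exact (der hβ hx.1 (hx.2.trans h2)).differentiableAt.differentiableWithinAt
    · intro x hx
      rw [interior_Ioc] at hx
      have hx1 : x < 1 := hx.2.trans h2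
      rw [(der hβ hx.1 hx1).deriv]
      have b1 := rpow_lt1 hx.1 hx1 hβ
      have b2 := rpow_lt1 hx.1 hx1 (show 0 < 1 + β by linarith)
      have h3 := hh_left hn hβ hx.1 hx.2.le h2 hv
      have h4 : 0 < x ^ (β - 1) := Real.rpow_pos_of_pos hx.1 _
      have : 0 ≤ β * (1 + β) * x ^ (β - 1) * (hh n β x /
        ((1 - x ^ β) * (1 - x ^ (1 + β)))) := by positivity
      linarith
  exact hA ⟨h0, h1⟩ ⟨lt_of_lt_of_le h0 h1, le_rfl⟩ h1

lemma mono {n : ℕ} (hn : 1 ≤ n) {β v v₂ : ℝ} (hβ : 0 < β) (h0 : 0 < v₂) (h1 : v₂ ≤ v)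
    (h2 : v < 1) (hv : hh n β v₂ ≤ 0) : Ph n β v₂ ≤ Ph n β v := by
  have hA : MonotoneOn (Ph n β) (Set.Ico v₂ 1) := by
    apply monotoneOn_of_deriv_nonneg (convex_Ico v₂ 1)
    · intro x hx
      exact (der hβ (lt_of_lt_of_le h0 hx.1) hx.2).continuousAt.continuousWithinAt
    · intro x hx
      rw [interior_Ico] at hx
      exact (der hβ (h0.trans hx.1) hx.2).differentiableAt.differentiableWithinAt
    · intro x hx
      rw [interior_Ico] at hx
      have hx0 : 0 < x := h0.trans hx.1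
      rw [(der hβ hx0 hx.2).deriv]
      have b1 := rpow_lt1 hx0 hx.2 hβ
      have b2 := rpow_lt1 hx0 hx.2 (show 0 < 1 + β by linarith)
      have h3 := hh_right hn hβ h0 hx.1.le hx.2 hv
      have h4 : 0 < x ^ (β - 1) := Real.rpow_pos_of_pos hx0 _
      have h5 : 0 ≤ β * (1 + β) * x ^ (β - 1) * (-(hh n β x) /
        ((1 - x ^ β) * (1 - x ^ (1 + β)))) := by
        have : 0 ≤ -(hh n β x) := by linarith
        positivity
      have h6 : β * (1 + β) * x ^ (β - 1) * (-(hh n β x) /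
        ((1 - x ^ β) * (1 - x ^ (1 + β)))) = -(β * (1 + β) * x ^ (β - 1) * (hh n β x /
        ((1 - x ^ β) * (1 - x ^ (1 + β))))) := by ring
      rw [h6] at h5
      exact h5
  exact hA ⟨le_rfl, lt_of_le_of_lt h1 h2⟩ ⟨h1, h2⟩ h1

/-- the condition from a bracket of the extremal point -/
theorem cond_of_bracket {n : ℕ} (hn : 1 ≤ n) {c β v₁ v₂ : ℝ} (hc0 : 0 ≤ c) (hc1 : c < 1)
    (hβ : 0 < β) (h1 : 0 < v₁) (h12 : v₁ ≤ v₂) (h2 : v₂ < 1)
    (hv1 : 0 ≤ hh n β v₁) (hv2 : hh n β v₂ ≤ 0)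
    (hb : (1 - c) * (1 - v₁ ^ (1 + β)) ^ ((n : ℝ) * β) ≤ (1 - v₂ ^ β) ^ (1 + β)) :
    Cond n β c := by
  have hn0 : (0:ℝ) < n := by exact_mod_cast (show 0 < n by omega)
  have h1c : 0 < 1 - c := by linarith
  have hv20 : 0 < v₂ := lt_of_lt_of_le h1 h12
  have hv11 : v₁ < 1 := lt_of_le_of_lt h12 h2
  have m1 : ∀ x y : ℝ, 0 < x → x ≤ y → y < 1 → ∀ e : ℝ, 0 < e → 1 - y ^ e ≤ 1 - x ^ e := by
    intro x y hx hxy _ e he
    have := Real.rpow_le_rpow hx.le hxy he.le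
    linarith
  have main : ∀ v : ℝ, 0 < v → v < 1 →
      (1 - c) * (1 - v ^ (1 + β)) ^ ((n : ℝ) * β) ≤ (1 - v ^ β) ^ (1 + β) := by
    intro v hv0 hvlt
    rcases le_or_gt v v₁ with ha | ha
    · rw [iff_log hc1 hβ hv0 hvlt]
      refine le_trans ?_ (anti hn hβ hv0 ha hv11 hv1)
      rw [← iff_log hc1 hβ h1 hv11]
      refine hb.trans ?_
      exact Real.rpow_le_rpow (rpow_lt1 hv20 h2 hβ).le (m1 _ _ h1 h12 h2 β hβ) (by linarith)
    · rcases le_or_gt v v₂ with hb2 | hb2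
      · have e1 : (1 - v ^ (1 + β)) ^ ((n : ℝ) * β) ≤ (1 - v₁ ^ (1 + β)) ^ ((n : ℝ) * β) :=
          Real.rpow_le_rpow (rpow_lt1 hv0 hvlt (by linarith)).le
            (m1 _ _ h1 ha.le hvlt (1 + β) (by linarith)) (by positivity)
        have e2 : (1 - v₂ ^ β) ^ (1 + β) ≤ (1 - v ^ β) ^ (1 + β) :=
          Real.rpow_le_rpow (rpow_lt1 hv20 h2 hβ).le (m1 _ _ hv0 hb2 h2 β hβ) (by linarith)
        exact (mul_le_mul_of_nonneg_left e1 h1c.le).trans (hb.trans e2)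
      · rw [iff_log hc1 hβ hv0 hvlt]
        refine le_trans ?_ (mono hn hβ hv20 hb2.le hvlt hv2)
        rw [← iff_log hc1 hβ hv20 h2]
        refine le_trans ?_ hb
        apply mul_le_mul_of_nonneg_left _ h1c.le
        exact Real.rpow_le_rpow (rpow_lt1 hv20 h2 (by linarith)).le
          (m1 _ _ h1 h12 h2 (1 + β) (by linarith)) (by positivity)
  intro w hw0 hw1
  rcases hw0.eq_or_lt with h | h
  · rw [← h, Real.zero_rpow (by positivity)]
    simp only [sub_zero, Real.one_rpow, mul_one]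
    linarith
  rcases hw1.eq_or_lt with h' | h'
  · rw [h', Real.one_rpow, sub_self, Real.zero_rpow (by positivity), Real.zero_rpow (by positivity),
      mul_zero]
  · have hm := main (w ^ (1 / β)) (by positivity) (Real.rpow_lt_one h.le h' (by positivity))
    have e1 : (w ^ (1 / β)) ^ β = w := by
      rw [← Real.rpow_mul h.le, one_div_mul_cancel hβ.ne', Real.rpow_one]
    have e2 : (w ^ (1 / β)) ^ (1 + β) = w ^ (1 + 1 / β) := by
      rw [← Real.rpow_mul h.le]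
      congr 1
      field_simp
      ring
    rwa [e1, e2] at hm

/-- the closed form of the condition: it need be checked only at the extremal point -/
theorem cond_crit {n : ℕ} (hn : 1 ≤ n) {c β w : ℝ} (hc0 : 0 ≤ c) (hc1 : c < 1) (hβ : 0 < β)
    (hw0 : 0 < w) (hw1 : w < 1) (hw : ((n : ℝ) - (n - 1) * w) ^ β = 1 / w)
    (hb : (1 - c) * (n * (1 - w) / (n - (n - 1) * w)) ^ ((n : ℝ) * β) ≤ (1 - w) ^ (1 + β)) :
    Cond n β c := by
  have hn1 : (1:ℝ) ≤ n := by exact_mod_cast hn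
  have hpos : 0 < (n : ℝ) - (n - 1) * w := by nlinarith
  set v : ℝ := 1 / ((n : ℝ) - (n - 1) * w) with hv
  have hv0 : 0 < v := by positivity
  have hvβ : v ^ β = w := by
    rw [hv, Real.div_rpow (by norm_num) hpos.le, Real.one_rpow, hw]
    field_simp
  have hv1 : v < 1 := by
    by_contra hcon
    push Not at hcon
    have := Real.one_le_rpow hcon hβ.le
    rw [hvβ] at this
    linarith
  have hv1β : v ^ (1 + β) = w * v := by
    rw [Real.rpow_add hv0, Real.rpow_one, hvβ]; ring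
  have hh0 : hh n β v = 0 := by
    unfold hh
    rw [hv1β, hv]
    field_simp
    ring
  apply cond_of_bracket hn hc0 hc1 hβ hv0 le_rfl hv1 hh0.ge hh0.le
  rw [hv1β, hvβ]
  have e : 1 - w * v = n * (1 - w) / (n - (n - 1) * w) := by
    have e3 : v * ((n : ℝ) - (n - 1) * w) = 1 := by
      rw [hv]; exact one_div_mul_cancel hpos.ne'
    rw [eq_div_iff hpos.ne']
    calc (1 - w * v) * ((n : ℝ) - (n - 1) * w) =
        ((n : ℝ) - (n - 1) * w) - w * (v * ((n : ℝ) - (n - 1) * w)) := by ring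
      _ = _ := by rw [e3]; ring
  rw [e]
  exact hb

end Pool.Agent.U902.KI
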