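import Pool.Agent.H384R3.SPk.E

set_option autoImplicit false

/-! The exact condition under which one induction step works, and the one step inequality. -/

namespace Pool.Agent.U902.KI

open Pool.Agent.H384R3.SPk

/-- the condition on `(n, β, c)` -/
def Cond (n : ℕ) (β c : ℝ) : Prop :=
  ∀ w : ℝ, 0 ≤ w → w ≤ 1 → (1 - c) * (1 - w ^ (1 + 1 / β)) ^ ((n : ℝ) * β) ≤ (1 - w) ^ (1 + β)

/-- the key inequality -/
theorem key {n : ℕ} (hn : 1 ≤ n) {c β : ℝ} (hc : 0 < c) (hc1 : c < 1) (hβ : 0 < β)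
    (hB : Cond n β c) {Q u : ℝ} (hQ0 : 0 ≤ Q) (hQ1 : Q ≤ 1) (hu0 : 0 ≤ u) (hu1 : u ≤ 1) :
    (1 - c * Q) * (1 - u) ^ ((n : ℝ) * β) ≤ (1 - (Q * u ^ β) ^ (1 / (1 + β))) ^ (1 + β) := by
  have hn0 : (0:ℝ) < n := by exact_mod_cast (show 0 < n by omega)
  have h1c : 0 < 1 - c := by linarith
  obtain ⟨n', hn'def⟩ : ∃ n' : ℝ, n' = (1 / c) ^ (1 / β) := ⟨_, rfl⟩
  have hcinv : 1 < 1 / c := by rw [lt_div_iff₀ hc]; linarith
  have hn'0 : 1 < n' := by rw [hn'def]; exact Real.one_lt_rpow hcinv (by positivity)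
  have hn'pos : 0 < n' := by linarith
  have hnβ : n' ^ β = 1 / c := by
    rw [hn'def, ← Real.rpow_mul (by positivity), one_div_mul_cancel hβ.ne', Real.rpow_one]
  have hcn : c * n' ^ β = 1 := by rw [hnβ]; field_simp
  have hs : 1 / (1 + β) + β / (1 + β) = 1 := by field_simp
  have hx : (Q * u ^ β) ^ (1 / (1 + β)) = Q ^ (1 / (1 + β)) * u ^ (β / (1 + β)) := by
    rw [Real.mul_rpow hQ0 (by positivity), ← Real.rpow_mul hu0]
    congr 2
    field_simp
  have hcQ : 0 ≤ 1 - c * Q := by nlinarith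
  have h1u : 0 ≤ 1 - u := by linarith
  -- the critical point of the first region
  have hW : c ^ (1 + 1 / β) = c / n' := by
    rw [Real.rpow_add hc, Real.rpow_one, hn'def, Real.div_rpow (by norm_num) hc.le, Real.one_rpow]
    field_simp
  have hW1 : c / n' < 1 := by rw [div_lt_one hn'pos]; linarith
  have hcr : (1 - c / n') ^ n ≤ 1 - c := by
    have h := hB c hc.le hc1.le
    rw [hW, Real.rpow_add h1c, Real.rpow_one] at h
    have h2 := le_of_mul_le_mul_left h h1c
    rw [Real.rpow_mul (by linarith), Real.rpow_natCast] at h2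
    exact (Real.rpow_le_rpow_iff (pow_nonneg (by linarith) n) h1c.le hβ).1 h2
  rcases le_or_gt (n' * u) c with hcase | hcase
  · have h1 : (1 - u) ^ n ≤ 1 - n' * u := by
      set t : ℝ := n' * u / c with ht
      have ht0 : 0 ≤ t := by positivity
      have ht1 : t ≤ 1 := by rw [ht, div_le_one hc]; exact hcase
      have hcv := (convexOn_pow (𝕜 := ℝ) n).2 (show (1:ℝ) ∈ Set.Ici (0:ℝ) by simp)
        (show 1 - c / n' ∈ Set.Ici (0:ℝ) by
          simp only [Set.mem_Ici]; linarith)
        (show 0 ≤ 1 - t by linarith) ht0 (by ring)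
      simp only [smul_eq_mul, one_pow, mul_one] at hcv
      have e : (1 - t) + t * (1 - c / n') = 1 - u := by
        rw [ht]; field_simp; ring
      rw [e] at hcv
      have e2 : n' * u = t * c := by rw [ht]; field_simp
      rw [e2]
      nlinarith
    have h2 : (1 - u) ^ ((n:ℝ) * β) ≤ (1 - n' * u) ^ β := by
      rw [Real.rpow_mul h1u, Real.rpow_natCast]
      exact Real.rpow_le_rpow (by positivity) h1 hβ.le
    have h1nu : 0 ≤ 1 - n' * u := by linarith
    have hAM1 := Real.geom_mean_le_arith_mean2_weighted (w₁ := 1 / (1 + β)) (w₂ := β / (1 + β))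
      (p₁ := c * Q) (p₂ := n' * u) (by positivity) (by positivity) (by positivity) (by positivity) hs
    have hAM2 := Real.geom_mean_le_arith_mean2_weighted (w₁ := 1 / (1 + β)) (w₂ := β / (1 + β))
      (p₁ := 1 - c * Q) (p₂ := 1 - n' * u) (by positivity) (by positivity) hcQ h1nu hs
    have e1 : (c * Q) ^ (1 / (1 + β)) * (n' * u) ^ (β / (1 + β)) =
        Q ^ (1 / (1 + β)) * u ^ (β / (1 + β)) := by
      rw [Real.mul_rpow hc.le hQ0, Real.mul_rpow (by positivity) hu0]
      have : c ^ (1 / (1 + β)) * n' ^ (β / (1 + β)) = 1 := by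
        have e : n' ^ (β / (1 + β)) = (n' ^ β) ^ (1 / (1 + β)) := by
          rw [← Real.rpow_mul (by linarith)]; congr 1; field_simp
        rw [e, ← Real.mul_rpow hc.le (by positivity), hcn, Real.one_rpow]
      calc _ = (c ^ (1 / (1 + β)) * n' ^ (β / (1 + β))) *
          (Q ^ (1 / (1 + β)) * u ^ (β / (1 + β))) := by ring
        _ = _ := by rw [this, one_mul]
    rw [e1] at hAM1
    rw [hx]
    set x := Q ^ (1 / (1 + β)) * u ^ (β / (1 + β)) with hxdef
    set z := (1 - c * Q) ^ (1 / (1 + β)) * (1 - n' * u) ^ (β / (1 + β)) with hz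
    have hsum : x + z ≤ 1 := by
      have : 1 / (1 + β) * (c * Q) + β / (1 + β) * (n' * u) + (1 / (1 + β) * (1 - c * Q) +
          β / (1 + β) * (1 - n' * u)) = 1 / (1 + β) + β / (1 + β) := by ring
      linarith
    have hz0 : 0 ≤ z := by positivity
    have hzp : z ^ (1 + β) = (1 - c * Q) * (1 - n' * u) ^ β := by
      rw [hz, Real.mul_rpow (by positivity) (by positivity), ← Real.rpow_mul hcQ, ← Real.rpow_mul h1nu]
      have a1 : 1 / (1 + β) * (1 + β) = 1 := by field_simp
      have a2 : β / (1 + β) * (1 + β) = β := by field_simp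
      rw [a1, a2, Real.rpow_one]
    calc (1 - c * Q) * (1 - u) ^ ((n:ℝ) * β) ≤ (1 - c * Q) * (1 - n' * u) ^ β :=
          mul_le_mul_of_nonneg_left h2 hcQ
      _ = z ^ (1 + β) := hzp.symm
      _ ≤ (1 - x) ^ (1 + β) := Real.rpow_le_rpow hz0 (by linarith) (by linarith)
  · rw [hx]
    set r := Q ^ (1 / (1 + β)) with hr
    have hr0 : 0 ≤ r := by positivity
    have hr1 : r ≤ 1 := Real.rpow_le_one hQ0 hQ1 (by positivity)
    have hy1 : u ^ (β / (1 + β)) ≤ 1 := Real.rpow_le_one hu0 hu1 (by positivity)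
    have hy0 : 0 ≤ u ^ (β / (1 + β)) := by positivity
    rcases hu1.eq_or_lt with h | hult
    · rw [h]
      have : (1 - (1:ℝ)) ^ ((n:ℝ) * β) = 0 := by
        rw [sub_self, Real.zero_rpow (by positivity)]
      rw [this, mul_zero]
      apply Real.rpow_nonneg
      rw [Real.one_rpow]
      linarith
    · have h2 := hB (u ^ (β / (1 + β))) hy0 hy1
      have hyu : (u ^ (β / (1 + β))) ^ (1 + 1 / β) = u := by
        rw [← Real.rpow_mul hu0]
        have : β / (1 + β) * (1 + 1 / β) = 1 := by field_simp; ring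
        rw [this, Real.rpow_one]
      rw [hyu] at h2
      have hcy : c ≤ u ^ (β / (1 + β)) := by
        have h3 : c ^ (1 + 1 / β) ≤ u := by
          rw [hW, div_le_iff₀ hn'pos]; linarith
        have h4 := Real.rpow_le_rpow (by positivity) h3 (show 0 ≤ β / (1 + β) by positivity)
        rw [← Real.rpow_mul hc.le] at h4
        have : (1 + 1 / β) * (β / (1 + β)) = 1 := by field_simp; ring
        rwa [this, Real.rpow_one] at h4
      have hylt : u ^ (β / (1 + β)) < 1 := Real.rpow_lt_one hu0 hult (by positivity)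
      have h3 := stepA hc hc1 hβ hr0 hr1 hcy hylt
      have hrQ : r ^ (1 + β) = Q := by
        rw [hr, ← Real.rpow_mul hQ0]
        have : 1 / (1 + β) * (1 + β) = 1 := by field_simp
        rw [this, Real.rpow_one]
      rw [hrQ] at h3
      have h4 : (1 - c * Q) * ((1 - c) * (1 - u) ^ ((n:ℝ) * β)) ≤
          (1 - c * Q) * (1 - u ^ (β / (1 + β))) ^ (1 + β) := mul_le_mul_of_nonneg_left h2 hcQ
      have h5 : (1 - c) * ((1 - c * Q) * (1 - u) ^ ((n:ℝ) * β)) ≤
          (1 - c) * (1 - r * u ^ (β / (1 + β))) ^ (1 + β) := by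
        calc _ = (1 - c * Q) * ((1 - c) * (1 - u) ^ ((n:ℝ) * β)) := by ring
          _ ≤ _ := h4.trans h3
      exact le_of_mul_le_mul_left h5 h1c

end Pool.Agent.U902.KI
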