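import Pool.Agent.U902.KI.Ineq
import Pool.Agent.N811.IS.Chain

set_option autoImplicit false

/-! The isoperimetric inequality under the exact condition `Cond`. -/

namespace Pool.Agent.U902.KI

open Finset Pool.Agent.H384R3.SPk Pool.Agent.N811.IS
open scoped Pointwise

universe u

/-- one step of the induction -/
theorem os' {n : ℕ} (hn : 1 ≤ n) {c β : ℝ} (hc : 0 < c) (hc1 : c < 1) (hβ : 0 < β)
    (hB : Cond n β c) {a₀ a' R₀ R' ρ : ℝ}
    (ha₀ : 0 < a₀) (ha' : 0 < a') (hR₀ : 0 < R₀) (hR' : 0 < R')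
    (h1 : R₀ ≤ ρ) (h2 : R' + c * R₀ ≤ ρ) :
    q n β (a₀ + a') ρ ^ n ≤ q n β a₀ R₀ ^ n + q n β a' R' * q n β (a₀ + a') ρ ^ (n - 1) := by
  have hρ : 0 < ρ := lt_of_lt_of_le hR₀ h1
  have ha : 0 < a₀ + a' := by linarith
  have hn0 : (0:ℝ) < n := by exact_mod_cast (show 0 < n by omega)
  set a := a₀ + a' with hadef
  set p := q n β a ρ with hp
  have hp0 : 0 < p := q_pos n β ha hρ
  set x := a₀ / a with hx
  have hx0 : 0 < x := by positivity
  have hx1 : 1 - x = a' / a := by rw [hx]; field_simp; rw [hadef]; ring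
  have hx1' : 0 < 1 - x := by rw [hx1]; positivity
  set Q := R₀ / ρ with hQ
  have hQ0 : 0 < Q := by positivity
  have hQ1 : Q ≤ 1 := by rw [hQ, div_le_one hρ]; exact h1
  set u := (x ^ (1 + β) / Q) ^ (1 / β) with hu
  have hu0 : 0 < u := by positivity
  have hp₀ : q n β a₀ R₀ ^ n = u * p ^ n := by
    rw [q_pow n hn hβ ha₀ hR₀, hp, q_pow n hn hβ ha hρ, hu,
      ← Real.mul_rpow (by positivity) (by positivity)]
    congr 1
    rw [hx, hQ, Real.div_rpow ha₀.le ha.le]
    field_simp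
  set v := q n β a' R' / p with hv
  have hv0 : 0 < v := div_pos (q_pos n β ha' hR') hp0
  have hcQ : 0 < 1 - c * Q := by nlinarith
  have hvp : (1 - x) ^ (1 + β) / (1 - c * Q) ≤ v ^ ((n:ℝ) * β) := by
    rw [hv, Real.div_rpow (q_nonneg n β ha'.le hR'.le) hp0.le, q_rpow n hn hβ ha' hR', hp,
      q_rpow n hn hβ ha hρ, hx1, Real.div_rpow ha'.le ha.le]
    have e : a' ^ (1 + β) / R' / (a ^ (1 + β) / ρ) = a' ^ (1 + β) / a ^ (1 + β) / (R' / ρ) := by
      field_simp
    rw [e]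
    apply div_le_div_of_nonneg_left (by positivity) (by positivity)
    rw [div_le_iff₀ hρ, hQ]
    have : (1 - c * (R₀ / ρ)) * ρ = ρ - c * R₀ := by field_simp
    rw [this]
    linarith
  have hkey : 1 ≤ u + v := by
    rcases le_or_gt 1 u with hu1 | hu1
    · linarith
    · have hK := key hn hc hc1 hβ hB hQ0.le hQ1 hu0.le hu1.le
      have hxu : (Q * u ^ β) ^ (1 / (1 + β)) = x := by
        rw [hu, ← Real.rpow_mul (by positivity)]
        have : 1 / β * β = 1 := by field_simp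
        rw [this, Real.rpow_one]
        have : Q * (x ^ (1 + β) / Q) = x ^ (1 + β) := by field_simp
        rw [this, ← Real.rpow_mul hx0.le]
        have : (1 + β) * (1 / (1 + β)) = 1 := by field_simp
        rw [this, Real.rpow_one]
      rw [hxu] at hK
      have h3 : (1 - u) ^ ((n:ℝ) * β) ≤ (1 - x) ^ (1 + β) / (1 - c * Q) := by
        rw [le_div_iff₀ hcQ]; linarith
      have h4 : (1 - u) ^ ((n:ℝ) * β) ≤ v ^ ((n:ℝ) * β) := h3.trans hvp
      have h5 : 1 - u ≤ v := by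
        by_contra hcon
        push Not at hcon
        have := Real.rpow_lt_rpow hv0.le hcon (show 0 < (n:ℝ) * β by positivity)
        linarith
      linarith
  rw [hp₀]
  have e : q n β a' R' * p ^ (n - 1) = v * p ^ n := by
    rw [hv]
    have : p ^ n = p * p ^ (n - 1) := by
      rw [← pow_succ']; congr 1; omega
    rw [this]
    field_simp
  rw [e]
  nlinarith [pow_pos hp0 n]

section
variable {R : Type u} [CommRing R] [DecidableEq R] (V : VR R)

/-- the isoperimetric form of the main theorem -/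
theorem main' {n : ℕ} (hn : 1 ≤ n) {θ c β : ℝ} (hθ : 1 / 2 ≤ θ) (hθ1 : θ < 1)
    (hc : 0 < c) (hcθ : c ≤ 2 ^ (1 - θ) - 1) (hβ : 0 < β) (hB : Cond n β c)
    (A : Fin n → Finset R) (hAn : ∀ i, (A i).Nonempty) (hAp : ∀ i, ∀ a ∈ A i, a ∈ V.S) :
    ∏ i, q n β ((A i).card : ℝ) (rho θ (A i)) ≤
      ((Pool.Agent.N811.IS.prodset A).card : ℝ) := by
  have hX2 : (2:ℝ) ^ (1 - θ) < 2 := by
    have : (2:ℝ) ^ (1 - θ) < 2 ^ (1:ℝ) :=
      Real.rpow_lt_rpow_of_exponent_lt (by norm_num) (by linarith)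
    rwa [Real.rpow_one] at this
  have hc1 : c < 1 := by linarith
  refine ind V hn (fun A => q n β ((A.card : ℝ)) (rho θ A)) ?_ ?_ ?_ A hAn hAp
  · intro A
    exact q_nonneg n β (Nat.cast_nonneg _) (rho_nonneg θ A)
  · intro p A A₀ A' j hA0 hne0 hne' hdisj hun hv0 hv'
    have hcard : (A.card : ℝ) = A₀.card + A'.card := by
      rw [← hun, Finset.card_union_of_disjoint hdisj]; push_cast; ring
    have s0 : A₀ ⊆ A := by rw [← hun]; exact Finset.subset_union_left
    have s1 : A' ⊆ A := by rw [← hun]; exact Finset.subset_union_right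
    have r0 := one_le_rho hθ1.le hne0
    have r1 := one_le_rho hθ1.le hne'
    have hR0 : rho θ A₀ ≤ rho θ A := rho_mono θ s0
    have hstep := rho_step hθ hθ1 (V.H p (j + 1)) s0 s1
      (fun a ha h => by
        have := (V.mem_H p (j + 1) a (hA0 a (s0 ha))).1 h
        rw [hv0 a ha] at this
        omega)
      (fun a ha => (V.mem_H p (j + 1) a (hA0 a (s1 ha))).2 (hv' a ha))
    have hstep' : rho θ A' + c * rho θ A₀ ≤ rho θ A := by
      have : c * rho θ A₀ ≤ (2 ^ (1 - θ) - 1) * rho θ A₀ :=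
        mul_le_mul_of_nonneg_right hcθ (by linarith)
      linarith
    have := os' hn hc hc1 hβ hB (a₀ := (A₀.card : ℝ)) (a' := (A'.card : ℝ))
      (by exact_mod_cast hne0.card_pos) (by exact_mod_cast hne'.card_pos)
      (by linarith) (by linarith) hR0 hstep'
    rw [← hcard] at this
    exact this
  · intro a ha
    have h1 := one_le_rho (θ := θ) hθ1.le (Finset.singleton_nonempty a)
    have : (({a} : Finset R).card : ℝ) ^ (1 + β) / rho θ {a} ≤ 1 := by
      rw [Finset.card_singleton, Nat.cast_one, Real.one_rpow, div_le_one (by linarith)]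
      exact h1
    have h0 : 0 ≤ (({a} : Finset R).card : ℝ) ^ (1 + β) / rho θ {a} :=
      div_nonneg (Real.rpow_nonneg (Nat.cast_nonneg _) _) (by linarith)
    exact Real.rpow_le_one h0 this (by positivity)

/-- the isoperimetric inequality for several sets -/
theorem iso_family' {n : ℕ} (hn : 1 ≤ n) {θ c β : ℝ} (hθ : 1 / 2 ≤ θ) (hθ1 : θ < 1)
    (hc : 0 < c) (hcθ : c ≤ 2 ^ (1 - θ) - 1) (hβ : 0 < β) (hB : Cond n β c)
    (A : Fin n → Finset R) (hA : ∀ i, (A i).Nonempty) (hAp : ∀ i, ∀ a ∈ A i, a ∈ V.S)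
    (X : Fin n → Finset R) (hX : ∀ i, (X i).Nonempty) :
    ∏ i, (((A i).card : ℝ) ^ (1 + β) * ((X i).card : ℝ) ^ θ) ≤
      (∏ i, ((A i + X i).card : ℝ)) *
        ((Pool.Agent.N811.IS.prodset A).card : ℝ) ^ ((n : ℝ) * β) := by
  have hn0 : (0:ℝ) < n := by exact_mod_cast (show 0 < n by omega)
  have hm := main' V hn hθ hθ1 hc hcθ hβ hB A hA hAp
  have hR : ∀ i, 1 ≤ rho θ (A i) := fun i => one_le_rho hθ1.le (hA i)
  have hR0 : ∀ i, 0 < rho θ (A i) := fun i => by have := hR i; linarith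
  have hcard : ∀ i, (1:ℝ) ≤ (A i).card := fun i => by exact_mod_cast (hA i).card_pos
  set P : ℝ := ((Pool.Agent.N811.IS.prodset A).card : ℝ) with hP
  have h2 := Real.rpow_le_rpow (Finset.prod_nonneg fun i _ => q_nonneg n β (Nat.cast_nonneg _)
    (hR0 i).le) hm (show 0 ≤ (n:ℝ) * β by positivity)
  rw [← Real.finsetProd_rpow _ _ (fun i _ => q_nonneg n β (Nat.cast_nonneg _) (hR0 i).le)] at h2
  have e1 : ∀ i ∈ (Finset.univ : Finset (Fin n)),
      q n β ((A i).card : ℝ) (rho θ (A i)) ^ ((n:ℝ) * β) =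
        ((A i).card : ℝ) ^ (1 + β) / rho θ (A i) := by
    intro i _
    have := hcard i
    exact q_rpow n hn hβ (by linarith) (hR0 i)
  rw [Finset.prod_congr rfl e1, Finset.prod_div_distrib,
    div_le_iff₀ (Finset.prod_pos fun i _ => hR0 i)] at h2
  rw [Finset.prod_mul_distrib]
  have hPn : 0 ≤ P ^ ((n:ℝ) * β) := by positivity
  calc (∏ i, ((A i).card : ℝ) ^ (1 + β)) * ∏ i, ((X i).card : ℝ) ^ θ
      ≤ (P ^ ((n:ℝ) * β) * ∏ i, rho θ (A i)) * ∏ i, ((X i).card : ℝ) ^ θ :=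
        mul_le_mul_of_nonneg_right h2 (Finset.prod_nonneg fun i _ => by positivity)
    _ = P ^ ((n:ℝ) * β) * ∏ i, (rho θ (A i) * ((X i).card : ℝ) ^ θ) := by
        rw [Finset.prod_mul_distrib]; ring
    _ ≤ P ^ ((n:ℝ) * β) * ∏ i, ((A i + X i).card : ℝ) := by
        apply mul_le_mul_of_nonneg_left _ hPn
        apply Finset.prod_le_prod
        · intro i _; have := hR0 i; positivity
        · intro i _; exact rho_mul_le θ (A i) (hX i)
    _ = _ := mul_comm _ _

/-- the isoperimetric inequality for one set -/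
theorem iso_one' {n : ℕ} (hn : 1 ≤ n) {θ c β : ℝ} (hθ : 1 / 2 ≤ θ) (hθ1 : θ < 1)
    (hc : 0 < c) (hcθ : c ≤ 2 ^ (1 - θ) - 1) (hβ : 0 < β) (hB : Cond n β c)
    (A : Finset R) (hA : A.Nonempty) (hAp : ∀ a ∈ A, a ∈ V.S) (X : Finset R) (hX : X.Nonempty) :
    (A.card : ℝ) ^ (1 + β) * (X.card : ℝ) ^ θ ≤
      ((A + X).card : ℝ) *
        ((Pool.Agent.N811.IS.prodset fun _ : Fin n => A).card : ℝ) ^ β := by
  have hn0 : (0:ℝ) < n := by exact_mod_cast (show 0 < n by omega)
  have h := iso_family' V hn hθ hθ1 hc hcθ hβ hB (fun _ => A) (fun _ => hA) (fun _ => hAp)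
    (fun _ => X) (fun _ => hX)
  rw [Finset.prod_const, Finset.prod_const, Finset.card_univ, Fintype.card_fin] at h
  have e : ((Pool.Agent.N811.IS.prodset fun _ : Fin n => A).card : ℝ) ^ ((n : ℝ) * β) =
      (((Pool.Agent.N811.IS.prodset fun _ : Fin n => A).card : ℝ) ^ β) ^ n := by
    rw [← Real.rpow_natCast, ← Real.rpow_mul (Nat.cast_nonneg _), mul_comm]
  rw [e, ← mul_pow] at h
  exact le_of_pow_le_pow_left₀ (by omega) (by positivity) h

/-- the chain of isoperimetric inequalities, from a given start -/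
theorem chain' {n : ℕ} (hn : 1 ≤ n) {θ c β : ℝ} (hθ : 1 / 2 ≤ θ) (hθ1 : θ < 1)
    (hc : 0 < c) (hcθ : c ≤ 2 ^ (1 - θ) - 1) (hβ : 0 < β) (hB : Cond n β c)
    (A : Finset R) (hA : A.Nonempty) (hAp : ∀ a ∈ A, a ∈ V.S) (j : ℕ) {x y : ℝ}
    (h0 : (A.card : ℝ) ^ x ≤ ((Pool.Agent.N811.IS.sumset j A).card : ℝ) *
      ((Pool.Agent.N811.IS.prodset fun _ : Fin n => A).card : ℝ) ^ y) (k : ℕ) :
    (A.card : ℝ) ^ (θ ^ k * x + (1 + β) * ((1 - θ ^ k) / (1 - θ))) ≤
      ((Pool.Agent.N811.IS.sumset (j + k) A).card : ℝ) *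
        ((Pool.Agent.N811.IS.prodset fun _ : Fin n => A).card : ℝ) ^
          (θ ^ k * y + β * ((1 - θ ^ k) / (1 - θ))) := by
  have hcard : (1:ℝ) ≤ A.card := by exact_mod_cast hA.card_pos
  have hPle : (A.card : ℝ) ≤ (Pool.Agent.N811.IS.prodset fun _ : Fin n => A).card := by
    exact_mod_cast card_le_prodset V (fun _ : Fin n => A) (fun _ => hA) (fun _ => hAp)
      ⟨0, by omega⟩
  set P : ℝ := ((Pool.Agent.N811.IS.prodset fun _ : Fin n => A).card : ℝ) with hP
  have hP1 : 1 ≤ P := hcard.trans hPle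
  have h1θ : 0 < 1 - θ := by linarith
  have hθ0 : 0 < θ := by linarith
  induction k with
  | zero => simpa using h0
  | succ k ih =>
    have h := iso_one' V hn hθ hθ1 hc hcθ hβ hB A hA hAp (Pool.Agent.N811.IS.sumset (j + k) A)
      (sumset_nonempty (j + k) hA)
    rw [← sumset_succ, ← hP] at h
    set X : ℝ := θ ^ k * x + (1 + β) * ((1 - θ ^ k) / (1 - θ)) with hX
    set Y : ℝ := θ ^ k * y + β * ((1 - θ ^ k) / (1 - θ)) with hY
    have hX' : θ ^ (k + 1) * x + (1 + β) * ((1 - θ ^ (k + 1)) / (1 - θ)) = 1 + β + X * θ := by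
      rw [hX, pow_succ]; field_simp; ring
    have hY' : θ ^ (k + 1) * y + β * ((1 - θ ^ (k + 1)) / (1 - θ)) = β + Y * θ := by
      rw [hY, pow_succ]; field_simp; ring
    rw [hX', hY']
    have h2 := Real.rpow_le_rpow (by positivity) ih hθ0.le
    rw [Real.mul_rpow (by positivity) (by positivity), ← Real.rpow_mul (by linarith),
      ← Real.rpow_mul (by linarith)] at h2
    rw [Real.rpow_add (show (0:ℝ) < A.card by linarith), Real.rpow_add (show (0:ℝ) < P by linarith)]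
    calc (A.card : ℝ) ^ (1 + β) * (A.card : ℝ) ^ (X * θ)
        ≤ (A.card : ℝ) ^ (1 + β) *
          (((Pool.Agent.N811.IS.sumset (j + k) A).card : ℝ) ^ θ * P ^ (Y * θ)) :=
          mul_le_mul_of_nonneg_left h2 (by positivity)
      _ = ((A.card : ℝ) ^ (1 + β) * ((Pool.Agent.N811.IS.sumset (j + k) A).card : ℝ) ^ θ) *
          P ^ (Y * θ) := by ring
      _ ≤ (((Pool.Agent.N811.IS.sumset (j + k + 1) A).card : ℝ) * P ^ β) * P ^ (Y * θ) :=
          mul_le_mul_of_nonneg_right h (by positivity)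
      _ = _ := by rw [add_assoc]; ring

end

end Pool.Agent.U902.KI
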