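import Pool.Agent.U902.KI.Iso
import Pool.Agent.U902.KI.Crit
import Pool.Agent.N811.SP.Final2
import Pool.Agent.H201R3.SPk.G

set_option autoImplicit false

/-! The exponents for `N`-fold sums and products of integers. -/

namespace Pool.Agent.U902.KI

open Finset Pool.Agent.N811.IS

/-- positive integers -/
theorem pos_exp {N : ℕ} (hN : 4 ≤ N) {b θ c β e : ℝ} (hb : 0 ≤ b) (h5 : (5:ℝ) ≤ (N:ℝ) ^ b)
    (hθ : 1 / 2 ≤ θ) (hθ1 : θ < 1) (hc : 0 < c) (hcθ : c ≤ 2 ^ (1 - θ) - 1) (hβ : 0 < β)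
    (hB : Cond N β c)
    (he : e * (1 + (θ ^ (N - 3) * (3 * b) + β * ((1 - θ ^ (N - 3)) / (1 - θ)))) ≤
      θ ^ (N - 3) * (3 * (1 + b)) + (1 + β) * ((1 - θ ^ (N - 3)) / (1 - θ)))
    (A : Finset ℤ) (hA : A.Nonempty) (hAp : ∀ a ∈ A, 0 < a) :
    (A.card : ℝ) ^ e ≤
      max ((sumset N A).card : ℝ) ((prodset fun _ : Fin N => A).card : ℝ) := by
  have hcard : (1:ℝ) ≤ A.card := by exact_mod_cast hA.card_pos
  have hPle : (A.card : ℝ) ≤ (prodset fun _ : Fin N => A).card := by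
    exact_mod_cast card_le_prodset vrInt (fun _ : Fin N => A) (fun _ => hA) (fun _ => hAp)
      ⟨0, by omega⟩
  have h1 : (A.card : ℝ) ^ (3 * (1 + b)) ≤ ((sumset 3 A).card : ℝ) *
      ((prodset fun _ : Fin N => A).card : ℝ) ^ (3 * b) := by
    have := Pool.Agent.N811.SP.single2 (k := 3) (n := N) le_rfl (by omega) (by omega) (β := b)
      (by norm_num; exact h5) A hA hAp
    push_cast at this
    exact this
  have h := chain' vrInt (by omega) hθ hθ1 hc hcθ hβ hB A hA hAp 3 h1 (N - 3)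
  have e3 : 3 + (N - 3) = N := by omega
  rw [e3] at h
  set P : ℝ := ((prodset fun _ : Fin N => A).card : ℝ) with hP
  set M := max ((sumset N A).card : ℝ) P with hM
  have hM1 : 1 ≤ M := le_max_of_le_right (hcard.trans hPle)
  set S : ℝ := (1 - θ ^ (N - 3)) / (1 - θ) with hS
  have hp0 : 0 ≤ θ ^ (N - 3) := pow_nonneg (by linarith) _
  have hS0 : 0 ≤ S := by
    apply div_nonneg _ (by linarith)
    have : θ ^ (N - 3) ≤ 1 := pow_le_one₀ (by linarith) hθ1.le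
    linarith
  set y : ℝ := θ ^ (N - 3) * (3 * b) + β * S with hy
  have hy0 : 0 ≤ y := by positivity
  have hp : 0 < 1 + y := by linarith
  have h2 : (A.card : ℝ) ^ (θ ^ (N - 3) * (3 * (1 + b)) + (1 + β) * S) ≤ M ^ (1 + y) := by
    calc _ ≤ _ := h
      _ ≤ M * M ^ y := by
          apply mul_le_mul (le_max_left _ _) _ (by positivity) (by linarith)
          exact Real.rpow_le_rpow (by linarith) (le_max_right _ _) hy0
      _ = _ := by rw [Real.rpow_add (show 0 < M by linarith) 1 y, Real.rpow_one]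
  have h3 : ((A.card : ℝ) ^ e) ^ (1 + y) ≤ M ^ (1 + y) := by
    rw [← Real.rpow_mul (by linarith)]
    exact (Real.rpow_le_rpow_of_exponent_le hcard he).trans h2
  exact (Real.rpow_le_rpow_iff (by positivity) (by linarith) hp).1 h3

/-- all finite sets of integers -/
theorem all_exp {N : ℕ} (hN : 4 ≤ N) {b θ c β e : ℝ} (hb : 0 ≤ b) (h5 : (5:ℝ) ≤ (N:ℝ) ^ b)
    (hθ : 1 / 2 ≤ θ) (hθ1 : θ < 1) (hc : 0 < c) (hcθ : c ≤ 2 ^ (1 - θ) - 1) (hβ : 0 < β)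
    (hB : Cond N β c) (he0 : 0 ≤ e)
    (he : e * (1 + (θ ^ (N - 3) * (3 * b) + β * ((1 - θ ^ (N - 3)) / (1 - θ)))) ≤
      θ ^ (N - 3) * (3 * (1 + b)) + (1 + β) * ((1 - θ ^ (N - 3)) / (1 - θ)))
    (A : Finset ℤ) (hA : A.Nonempty) :
    ((A.card : ℝ) / 3) ^ e ≤
      max ((sumset N A).card : ℝ) ((prodset fun _ : Fin N => A).card : ℝ) := by
  by_cases h0 : A = {0}
  · have h1 : ((A.card : ℝ) / 3) ^ e ≤ 1 := by
      apply Real.rpow_le_one (by positivity) _ he0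
      rw [h0]
      norm_num
    exact h1.trans (le_max_of_le_left (by exact_mod_cast (sumset_nonempty N hA).card_pos))
  · obtain ⟨B, hB', hBp, hAB, hs, hp⟩ := Pool.Agent.H201R3.SPk.taskG A hA h0
    have hm := pos_exp hN hb h5 hθ hθ1 hc hcθ hβ hB he B hB' hBp
    have h1 : (A.card : ℝ) / 3 ≤ B.card := by
      have : (A.card : ℝ) ≤ 3 * B.card := by exact_mod_cast hAB
      linarith
    refine (Real.rpow_le_rpow (by positivity) h1 he0).trans (hm.trans ?_)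
    apply max_le_max
    · exact_mod_cast hs N
    · exact_mod_cast hp N

/-- the step constant from an integer inequality -/
lemma c_le {c : ℝ} {p q : ℕ} (hp : 0 < p) (h : (1 + c) ^ p ≤ 2 ^ q) :
    c ≤ 2 ^ ((q:ℝ) / p) - 1 := by
  have hp0 : (0:ℝ) < p := by exact_mod_cast hp
  have h1 : (1 + c) ^ p ≤ ((2:ℝ) ^ ((q:ℝ) / p)) ^ p := by
    rw [← Real.rpow_natCast ((2:ℝ) ^ ((q:ℝ) / p)), ← Real.rpow_mul (by norm_num),
      div_mul_cancel₀ _ hp0.ne', Real.rpow_natCast]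
    exact h
  have := le_of_pow_le_pow_left₀ hp.ne' (by positivity) h1
  linarith

/-- the condition for rational `β` from a bracket -/
lemma cond_num {n a b : ℕ} (hn : 1 ≤ n) (ha : 0 < a) (hb : 0 < b) {c z₁ z₂ : ℝ} (hc0 : 0 ≤ c)
    (hc1 : c < 1) (h1 : 0 < z₁) (h12 : z₁ ≤ z₂) (h2 : z₂ < 1)
    (hz1 : 0 ≤ 1 - n * z₁ ^ b + (n - 1) * z₁ ^ (a + b))
    (hz2 : 1 - n * z₂ ^ b + (n - 1) * z₂ ^ (a + b) ≤ 0)
    (h3 : (1 - c) ^ b * (1 - z₁ ^ (a + b)) ^ (n * a) ≤ (1 - z₂ ^ a) ^ (a + b)) :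
    Cond n ((a : ℝ) / b) c := by
  have ha0 : (0:ℝ) < a := by exact_mod_cast ha
  have hb0 : (0:ℝ) < b := by exact_mod_cast hb
  have h1c : 0 < 1 - c := by linarith
  have hz20 : 0 < z₂ := by linarith
  have e1 : ∀ z : ℝ, 0 < z → (z ^ b) ^ (1 + (a : ℝ) / b) = z ^ (a + b) := by
    intro z hz
    rw [← Real.rpow_natCast z b, ← Real.rpow_mul hz.le, ← Real.rpow_natCast]
    congr 1
    push_cast
    field_simp
    ring
  have e2 : ∀ z : ℝ, 0 < z → (z ^ b) ^ ((a : ℝ) / b) = z ^ a := by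
    intro z hz
    rw [← Real.rpow_natCast z b, ← Real.rpow_mul hz.le, ← Real.rpow_natCast]
    congr 1
    field_simp
  apply cond_of_bracket hn (v₁ := z₁ ^ b) (v₂ := z₂ ^ b) hc0 hc1 (by positivity) (by positivity)
    (pow_le_pow_left₀ h1.le h12 b) (pow_lt_one₀ hz20.le h2 hb.ne')
  · unfold hh; rw [e1 _ h1]; exact hz1
  · unfold hh; rw [e1 _ hz20]; exact hz2
  · rw [e1 _ h1, e2 _ hz20]
    have p1 : 0 < 1 - z₁ ^ (a + b) := by
      have := pow_lt_one₀ h1.le (lt_of_le_of_lt h12 h2) (show a + b ≠ 0 by omega)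
      linarith
    have p2 : 0 < 1 - z₂ ^ a := by
      have := pow_lt_one₀ hz20.le h2 ha.ne'
      linarith
    have q1 : ((1 - c) * (1 - z₁ ^ (a + b)) ^ ((n : ℝ) * ((a : ℝ) / b))) ^ b =
        (1 - c) ^ b * (1 - z₁ ^ (a + b)) ^ (n * a) := by
      rw [mul_pow, ← Real.rpow_natCast ((1 - z₁ ^ (a + b)) ^ ((n : ℝ) * ((a : ℝ) / b))),
        ← Real.rpow_mul p1.le, ← Real.rpow_natCast (1 - z₁ ^ (a + b)) (n * a)]
      congr 2
      push_cast
      field_simp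
    have q2 : ((1 - z₂ ^ a) ^ (1 + (a : ℝ) / b)) ^ b = (1 - z₂ ^ a) ^ (a + b) := by
      rw [← Real.rpow_natCast ((1 - z₂ ^ a) ^ (1 + (a : ℝ) / b)), ← Real.rpow_mul p2.le,
        ← Real.rpow_natCast (1 - z₂ ^ a) (a + b)]
      congr 1
      push_cast
      field_simp
      ring
    rw [← q1, ← q2] at h3
    exact le_of_pow_le_pow_left₀ hb.ne' (by positivity) h3

/-- the exponent from integer inequalities -/
theorem num_exp {N : ℕ} (hN : 4 ≤ N) {a b p q u w : ℕ} (ha : 0 < a) (hb : 0 < b) (hp : 0 < p)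
    (hq : 0 < q) (hpq : 2 * q ≤ p) (hw : 0 < w) (h5 : 5 ^ w ≤ N ^ u) {c z₁ z₂ e : ℝ} (hc0 : 0 < c)
    (hc1 : c < 1) (hcp : (1 + c) ^ p ≤ 2 ^ q) (h1 : 0 < z₁) (h12 : z₁ ≤ z₂) (h2 : z₂ < 1)
    (hz1 : 0 ≤ 1 - (N:ℝ) * z₁ ^ b + (N - 1) * z₁ ^ (a + b))
    (hz2 : 1 - (N:ℝ) * z₂ ^ b + (N - 1) * z₂ ^ (a + b) ≤ 0)
    (h3 : (1 - c) ^ b * (1 - z₁ ^ (a + b)) ^ (N * a) ≤ (1 - z₂ ^ a) ^ (a + b))
    (he0 : 0 ≤ e)
    (he : e * (1 + ((1 - (q:ℝ) / p) ^ (N - 3) * (3 * ((u:ℝ) / w)) + ((a:ℝ) / b) *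
        ((1 - (1 - (q:ℝ) / p) ^ (N - 3)) * (p / q)))) ≤
      (1 - (q:ℝ) / p) ^ (N - 3) * (3 * (1 + (u:ℝ) / w)) + (1 + (a:ℝ) / b) *
        ((1 - (1 - (q:ℝ) / p) ^ (N - 3)) * (p / q)))
    (A : Finset ℤ) (hA : A.Nonempty) :
    ((A.card : ℝ) / 3) ^ e ≤
      max ((sumset N A).card : ℝ) ((prodset fun _ : Fin N => A).card : ℝ) := by
  have hp0 : (0:ℝ) < p := by exact_mod_cast hp
  have hq0 : (0:ℝ) < q := by exact_mod_cast hq
  have ha0 : (0:ℝ) < a := by exact_mod_cast ha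
  have hb0 : (0:ℝ) < b := by exact_mod_cast hb
  have hw0 : (0:ℝ) < w := by exact_mod_cast hw
  have hN0 : (0:ℝ) < N := by exact_mod_cast (show 0 < N by omega)
  have hqp : (q:ℝ) / p ≤ 1 / 2 := by
    rw [div_le_div_iff₀ hp0 (by norm_num)]
    have : ((2 * q : ℕ) : ℝ) ≤ p := by exact_mod_cast hpq
    push_cast at this
    linarith
  have hqp0 : 0 < (q:ℝ) / p := by positivity
  have h5' : (5:ℝ) ≤ (N:ℝ) ^ ((u:ℝ) / w) := by
    have h6 : (5:ℝ) ^ w ≤ (N:ℝ) ^ u := by exact_mod_cast h5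
    have h7 : (5:ℝ) ^ w ≤ ((N:ℝ) ^ ((u:ℝ) / w)) ^ w := by
      rw [← Real.rpow_natCast ((N:ℝ) ^ ((u:ℝ) / w)), ← Real.rpow_mul hN0.le,
        div_mul_cancel₀ _ hw0.ne', Real.rpow_natCast]
      exact h6
    exact le_of_pow_le_pow_left₀ hw.ne' (by positivity) h7
  have e1 : (1:ℝ) - (1 - (q:ℝ) / p) = (q:ℝ) / p := by ring
  have e2 : ∀ x : ℝ, x / ((q:ℝ) / p) = x * (p / q) := by
    intro x
    field_simp
  apply all_exp hN (b := (u:ℝ) / w) (θ := 1 - (q:ℝ) / p) (c := c) (β := (a:ℝ) / b) (by positivity)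
    h5' (by linarith) (by linarith) hc0 _ (by positivity)
    (cond_num (by omega) ha hb hc0.le hc1 h1 h12 h2 hz1 hz2 h3) he0 _ A hA
  · rw [e1]
    exact c_le hp hcp
  · rw [e1, e2]
    exact he

end Pool.Agent.U902.KI
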