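import Pool.Agent.U902.KI.Num

set_option autoImplicit false

/-! Numerical values. -/

namespace Pool.Agent.U902.KI

open Finset Pool.Agent.N811.IS

/-- the exponent `e` holds for `N`-fold sums and products of finite sets of integers -/
def Ex (N : ℕ) (e : ℝ) : Prop :=
  ∀ A : Finset ℤ, A.Nonempty → ((A.card : ℝ) / 3) ^ e ≤
    max ((sumset N A).card : ℝ) ((prodset fun _ : Fin N => A).card : ℝ)

set_option exponentiation.threshold 100000

theorem v4 : Ex 4 1.46 := fun A hA =>
  num_exp (N := 4) (a := 17) (b := 13) (p := 79) (q := 19) (u := 137) (w := 118) (c := 0.1814)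
    (z₁ := 0.910306) (z₂ := 0.910307) (by norm_num) (by norm_num) (by norm_num) (by norm_num) (by norm_num)
    (by norm_num) (by norm_num) (by norm_num) (by norm_num) (by norm_num) (by norm_num)
    (by norm_num) (by norm_num) (by norm_num) (by norm_num) (by norm_num) (by norm_num)
    (by norm_num) (by norm_num) A hA

theorem v5 : Ex 5 1.5296 := fun A hA =>
  num_exp (N := 5) (a := 8) (b := 7) (p := 155) (q := 36) (u := 1) (w := 1) (c := 0.17467)
    (z₁ := 0.81379) (z₂ := 0.81380) (by norm_num) (by norm_num) (by norm_num) (by norm_num) (by norm_num)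
    (by norm_num) (by norm_num) (by norm_num) (by norm_num) (by norm_num) (by norm_num)
    (by norm_num) (by norm_num) (by norm_num) (by norm_num) (by norm_num) (by norm_num)
    (by norm_num) (by norm_num) A hA

theorem v6 : Ex 6 1.5863 := fun A hA =>
  num_exp (N := 6) (a := 17) (b := 16) (p := 60) (q := 13) (u := 53) (w := 59) (c := 0.162)
    (z₁ := 0.902988) (z₂ := 0.902989) (by norm_num) (by norm_num) (by norm_num) (by norm_num) (by norm_num)
    (by norm_num) (by norm_num) (by norm_num) (by norm_num) (by norm_num) (by norm_num)
    (by norm_num) (by norm_num) (by norm_num) (by norm_num) (by norm_num) (by norm_num)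
    (by norm_num) (by norm_num) A hA

theorem v7 : Ex 7 1.6339 := fun A hA =>
  num_exp (N := 7) (a := 1) (b := 1) (p := 29) (q := 6) (u := 67) (w := 81) (c := 0.1542)
    (z₁ := 0.16666) (z₂ := 0.16667) (by norm_num) (by norm_num) (by norm_num) (by norm_num) (by norm_num)
    (by norm_num) (by norm_num) (by norm_num) (by norm_num) (by norm_num) (by norm_num)
    (by norm_num) (by norm_num) (by norm_num) (by norm_num) (by norm_num) (by norm_num)
    (by norm_num) (by norm_num) A hA

theorem v8 : Ex 8 1.675 := fun A hA =>
  num_exp (N := 8) (a := 12) (b := 13) (p := 52) (q := 11) (u := 24) (w := 31) (c := 0.15792)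
    (z₁ := 0.862818) (z₂ := 0.862819) (by norm_num) (by norm_num) (by norm_num) (by norm_num) (by norm_num)
    (by norm_num) (by norm_num) (by norm_num) (by norm_num) (by norm_num) (by norm_num)
    (by norm_num) (by norm_num) (by norm_num) (by norm_num) (by norm_num) (by norm_num)
    (by norm_num) (by norm_num) A hA

theorem v9 : Ex 9 1.7107 := fun A hA =>
  num_exp (N := 9) (a := 8) (b := 9) (p := 191) (q := 39) (u := 63) (w := 86) (c := 0.15203)
    (z₁ := 0.79712) (z₂ := 0.79713) (by norm_num) (by norm_num) (by norm_num) (by norm_num) (by norm_num)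
    (by norm_num) (by norm_num) (by norm_num) (by norm_num) (by norm_num) (by norm_num)
    (by norm_num) (by norm_num) (by norm_num) (by norm_num) (by norm_num) (by norm_num)
    (by norm_num) (by norm_num) A hA

theorem v10 : Ex 10 1.7422 := fun A hA =>
  num_exp (N := 10) (a := 11) (b := 13) (p := 215) (q := 44) (u := 72) (w := 103) (c := 0.1524)
    (z₁ := 0.84796) (z₂ := 0.84797) (by norm_num) (by norm_num) (by norm_num) (by norm_num) (by norm_num)
    (by norm_num) (by norm_num) (by norm_num) (by norm_num) (by norm_num) (by norm_num)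
    (by norm_num) (by norm_num) (by norm_num) (by norm_num) (by norm_num) (by norm_num)
    (by norm_num) (by norm_num) A hA

theorem v11 : Ex 11 1.7705 := fun A hA =>
  num_exp (N := 11) (a := 9) (b := 11) (p := 134) (q := 27) (u := 247) (w := 368) (c := 0.14988)
    (z₁ := 0.815695) (z₂ := 0.815696) (by norm_num) (by norm_num) (by norm_num) (by norm_num) (by norm_num)
    (by norm_num) (by norm_num) (by norm_num) (by norm_num) (by norm_num) (by norm_num)
    (by norm_num) (by norm_num) (by norm_num) (by norm_num) (by norm_num) (by norm_num)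
    (by norm_num) (by norm_num) A hA

theorem v12 : Ex 12 1.796 := fun A hA =>
  num_exp (N := 12) (a := 13) (b := 16) (p := 205) (q := 39) (u := 24) (w := 37) (c := 0.1409565)
    (z₁ := 0.864087) (z₂ := 0.864088) (by norm_num) (by norm_num) (by norm_num) (by norm_num) (by norm_num)
    (by norm_num) (by norm_num) (by norm_num) (by norm_num) (by norm_num) (by norm_num)
    (by norm_num) (by norm_num) (by norm_num) (by norm_num) (by norm_num) (by norm_num)
    (by norm_num) (by norm_num) A hA

theorem v15 : Ex 15 1.8595 := fun A hA =>
  num_exp (N := 15) (a := 3) (b := 4) (p := 16) (q := 3) (u := 22) (w := 37) (c := 0.13878)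
    (z₁ := 0.5271) (z₂ := 0.5272) (by norm_num) (by norm_num) (by norm_num) (by norm_num) (by norm_num)
    (by norm_num) (by norm_num) (by norm_num) (by norm_num) (by norm_num) (by norm_num)
    (by norm_num) (by norm_num) (by norm_num) (by norm_num) (by norm_num) (by norm_num)
    (by norm_num) (by norm_num) A hA

theorem v20 : Ex 20 1.9395 := fun A hA =>
  num_exp (N := 20) (a := 5) (b := 7) (p := 149) (q := 25) (u := 137) (w := 255) (c := 0.12333)
    (z₁ := 0.66414) (z₂ := 0.66415) (by norm_num) (by norm_num) (by norm_num) (by norm_num) (by norm_num)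
    (by norm_num) (by norm_num) (by norm_num) (by norm_num) (by norm_num) (by norm_num)
    (by norm_num) (by norm_num) (by norm_num) (by norm_num) (by norm_num) (by norm_num)
    (by norm_num) (by norm_num) A hA

theorem v26 : Ex 26 2.009 := fun A hA =>
  num_exp (N := 26) (a := 2) (b := 3) (p := 37) (q := 6) (u := 1) (w := 2) (c := 0.1189)
    (z₁ := 0.35214) (z₂ := 0.35215) (by norm_num) (by norm_num) (by norm_num) (by norm_num) (by norm_num)
    (by norm_num) (by norm_num) (by norm_num) (by norm_num) (by norm_num) (by norm_num)
    (by norm_num) (by norm_num) (by norm_num) (by norm_num) (by norm_num) (by norm_num)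
    (by norm_num) (by norm_num) A hA

theorem v50 : Ex 50 2.1746 := fun A hA =>
  num_exp (N := 50) (a := 7) (b := 12) (p := 76) (q := 11) (u := 3) (w := 7) (c := 0.105528)
    (z₁ := 0.72863) (z₂ := 0.72864) (by norm_num) (by norm_num) (by norm_num) (by norm_num) (by norm_num)
    (by norm_num) (by norm_num) (by norm_num) (by norm_num) (by norm_num) (by norm_num)
    (by norm_num) (by norm_num) (by norm_num) (by norm_num) (by norm_num) (by norm_num)
    (by norm_num) (by norm_num) A hA

theorem v100 : Ex 100 2.341 := fun A hA =>
  num_exp (N := 100) (a := 8) (b := 15) (p := 74) (q := 9) (u := 1) (w := 1) (c := 0.087957)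
    (z₁ := 0.74024) (z₂ := 0.74025) (by norm_num) (by norm_num) (by norm_num) (by norm_num) (by norm_num)
    (by norm_num) (by norm_num) (by norm_num) (by norm_num) (by norm_num) (by norm_num)
    (by norm_num) (by norm_num) (by norm_num) (by norm_num) (by norm_num) (by norm_num)
    (by norm_num) (by norm_num) A hA

end Pool.Agent.U902.KI
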